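import Pool.Agent.Q139.Bin.Bd

/-!
# MP_d3ce6f_co: homogeneous tilings of type [3.4.3.4.4]

There are uncountably many pairwise not topologically equivalent homogeneous tilings of type
`[3.4.3.4.4]`: binary (Boroczky type) tilings of the plane by rectangles of width `2 ^ (-k)` in the
horizontal strip number `k`. The sequence that records, going down from a tile, whether two
consecutive steps are of different kinds (left or right child) is a topological invariant.
-/

namespace Pool.Agent.Results.MP_d3ce6f_co.UncountablyMany

open Pool.Agent.Q139.Bin

theorem result : ∃ S : Set (Set (Set E2)), ¬ S.Countable ∧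
    (∀ T ∈ S, IsHomogeneous T ![3, 4, 3, 4, 4]) ∧
      ∀ T ∈ S, ∀ T' ∈ S, T ≠ T' → ¬ TopEquiv T T' :=
  main

end Pool.Agent.Results.MP_d3ce6f_co.UncountablyMany
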